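import Pool.Agent.H28.RC.Targets2

/-! SGN: approximation with prescribed signs. -/

set_option autoImplicit false

open NumberField NumberField.InfinitePlace Filter

namespace Pool.Agent.H67.RC

open Pool.Agent.H28.RC Pool.Agent.H25.HK Pool.Agent.H25

theorem exists_signs (K : Type) [Field K] [NumberField K] (T : Set (RP K)) :
    ∃ x : K, x ≠ 0 ∧ (∀ v ∈ T, re v x < 0) ∧ ∀ v ∉ T, 0 < re v x := by
  classical
  let s : InfinitePlace K → K := fun v => if h : ∃ hv : v.IsReal, (⟨v, hv⟩ : RP K) ∈ T then -1 else 1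
  obtain ⟨x, hx⟩ := Metric.denseRange_iff.1 (denseRange_algebraMap_pi K)
    (fun v => (algebraMap K (WithAbs v.1)) (s v)) (1 / 2) (by norm_num)
  have hx' : ∀ v : InfinitePlace K, v (s v - x) < 1 / 2 := by
    intro v
    have h1 := (dist_pi_lt_iff (by norm_num : (0 : ℝ) < 1 / 2)).1 hx v
    rw [dist_eq_norm] at h1
    have h2 : (algebraMap K (WithAbs v.1)) (s v) -
        (algebraMap K ((v : InfinitePlace K) → WithAbs v.1)) x v =
        (algebraMap K (WithAbs v.1)) (s v - x) := by
      rw [map_sub]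
      rfl
    rw [h2] at h1
    exact h1
  have hre : ∀ v : RP K, |re v (s v.1) - re v x| < 1 / 2 := by
    intro v
    have h1 := hx' v.1
    rw [← norm_embedding_of_isReal v.2, Real.norm_eq_abs, map_sub] at h1
    exact h1
  refine ⟨x, ?_, fun v hv => ?_, fun v hv => ?_⟩
  · rintro rfl
    obtain ⟨v⟩ : Nonempty (InfinitePlace K) := inferInstance
    have h1 := hx' v
    rw [sub_zero] at h1
    have h2 : v (s v) = 1 := by
      show v (if h : ∃ hv : v.IsReal, (⟨v, hv⟩ : RP K) ∈ T then -1 else 1) = 1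
      split_ifs
      · rw [← v.norm_embedding_eq]; simp
      · exact map_one v
    rw [h2] at h1
    norm_num at h1
  · have h1 := hre v
    have h2 : s v.1 = -1 := dif_pos ⟨v.2, hv⟩
    rw [h2] at h1
    have h3 : re v (-1 : K) = -1 := by unfold re; rw [map_neg, map_one]
    rw [h3] at h1
    have := (abs_lt.1 h1).1
    linarith
  · have h1 := hre v
    have h2 : s v.1 = 1 := dif_neg (by rintro ⟨hv', h⟩; exact hv h)
    rw [h2] at h1
    have h3 : re v (1 : K) = 1 := by unfold re; rw [map_one]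
    rw [h3] at h1
    have := (abs_lt.1 h1).2
    linarith

theorem exists_signs_int (K : Type) [Field K] [NumberField K] (T : Set (RP K)) :
    ∃ d : 𝓞 K, d ≠ 0 ∧ (∀ v ∈ T, re v (d : K) < 0) ∧ ∀ v ∉ T, 0 < re v (d : K) := by
  obtain ⟨x, hx0, hT, hT'⟩ := exists_signs K T
  have halg : IsAlgebraic ℤ x :=
    (IsFractionRing.isAlgebraic_iff ℤ ℚ K).2 (Algebra.IsAlgebraic.isAlgebraic x)
  obtain ⟨y, hy0, hy⟩ := halg.exists_integral_multiple
  have hy2 : IsIntegral ℤ ((y ^ 2) • x) := by
    have h1 : (y ^ 2) • x = (y : K) * (y • x) := by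
      simp only [zsmul_eq_mul]
      push_cast
      ring
    rw [h1]
    exact (isIntegral_algebraMap (x := y)).mul hy
  have hyK : (y : K) ≠ 0 := by exact_mod_cast hy0
  have hre : ∀ v : RP K, re v ((y ^ 2) • x) = (y : ℝ) ^ 2 * re v x := by
    intro v
    unfold re
    rw [zsmul_eq_mul, map_mul]
    simp
  have hpos : (0 : ℝ) < (y : ℝ) ^ 2 := by
    have : (y : ℝ) ≠ 0 := by exact_mod_cast hy0
    positivity
  refine ⟨⟨(y ^ 2) • x, hy2⟩, ?_, fun v hv => ?_, fun v hv => ?_⟩
  · intro h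
    have h1 : (y ^ 2) • x = 0 := congrArg (fun z : 𝓞 K => (z : K)) h
    rw [zsmul_eq_mul, mul_eq_zero] at h1
    rcases h1 with h1 | h1
    · push_cast at h1
      exact hyK (pow_eq_zero_iff (two_ne_zero) |>.1 h1)
    · exact hx0 h1
  · show re v ((y ^ 2) • x) < 0
    rw [hre]
    exact mul_neg_of_pos_of_neg hpos (hT v hv)
  · show 0 < re v ((y ^ 2) • x)
    rw [hre]
    exact mul_pos hpos (hT' v hv)

theorem pf_SGN : T_SGN := by
  intro K _ _ m a T hm
  obtain ⟨d, hd0, hT, hT'⟩ := exists_signs_int K T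
  set N : ℕ := Ideal.absNorm m with hN
  have hN0 : N ≠ 0 := by
    rw [hN, Ne, Ideal.absNorm_eq_zero_iff]
    exact hm
  have hN1 : (0 : ℝ) < N := by exact_mod_cast Nat.pos_of_ne_zero hN0
  have hNm : ((N : ℕ) : 𝓞 K) ∈ m := Ideal.absNorm_mem m
  let b : ℕ → 𝓞 K := fun k => a + ((k * N : ℕ) : 𝓞 K) * d
  have hre : ∀ (v : RP K) (k : ℕ), re v (b k : K) = re v (a : K) + k * (N * re v (d : K)) := by
    intro v k
    show re v ((a + ((k * N : ℕ) : 𝓞 K) * d : 𝓞 K) : K) = _
    unfold re
    push_cast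
    rw [map_add, map_mul, map_mul, map_natCast, map_natCast]
    ring
  have hev : ∀ᶠ k : ℕ in atTop, ∀ v : RP K, (v ∈ T → re v (b k : K) < 0) ∧
      (v ∉ T → 0 < re v (b k : K)) := by
    rw [eventually_all]
    intro v
    by_cases hv : v ∈ T
    · have h1 : Tendsto (fun k : ℕ => re v (a : K) + k * (N * re v (d : K))) atTop atBot := by
        apply tendsto_atBot_add_const_left
        exact (tendsto_natCast_atTop_atTop (R := ℝ)).atTop_mul_const_of_neg
          (mul_neg_of_pos_of_neg hN1 (hT v hv))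
      filter_upwards [h1.eventually_lt_atBot 0] with k hk
      refine ⟨fun _ => ?_, fun h => absurd hv h⟩
      rw [hre]
      exact hk
    · have h1 : Tendsto (fun k : ℕ => re v (a : K) + k * (N * re v (d : K))) atTop atTop := by
        apply tendsto_atTop_add_const_left
        exact (tendsto_natCast_atTop_atTop (R := ℝ)).atTop_mul_const
          (mul_pos hN1 (hT' v hv))
      filter_upwards [h1.eventually_gt_atTop 0] with k hk
      refine ⟨fun h => absurd h hv, fun _ => ?_⟩
      rw [hre]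
      exact hk
  obtain ⟨k, hk⟩ := eventually_atTop.1 hev
  have hbm : ∀ k, b k - a ∈ m := by
    intro k
    have h1 : b k - a = ((k : ℕ) : 𝓞 K) * d * ((N : ℕ) : 𝓞 K) := by
      show a + ((k * N : ℕ) : 𝓞 K) * d - a = _
      push_cast
      ring
    rw [h1]
    exact m.mul_mem_left _ hNm
  by_cases h0 : b k = 0
  · refine ⟨b (k + 1), hbm _, ?_, fun v hv => (hk (k + 1) (by omega) v).1 hv,
      fun v hv => (hk (k + 1) (by omega) v).2 hv⟩
    have h1 : b (k + 1) = b k + ((N : ℕ) : 𝓞 K) * d := by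
      show a + (((k + 1) * N : ℕ) : 𝓞 K) * d = a + ((k * N : ℕ) : 𝓞 K) * d + _
      push_cast
      ring
    rw [h1, h0, zero_add]
    exact mul_ne_zero (by exact_mod_cast hN0) hd0
  · exact ⟨b k, hbm _, h0, fun v hv => (hk k le_rfl v).1 hv, fun v hv => (hk k le_rfl v).2 hv⟩

end Pool.Agent.H67.RC
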