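import Pool.Agent.H28.RC.Targets2

/-! FNR: almost all primes are unramified. -/

set_option autoImplicit false

open NumberField NumberField.InfinitePlace Filter

namespace Pool.Agent.H67.RC

open Pool.Agent.H28.RC Pool.Agent.H25.HK Pool.Agent.H25

theorem exists_moved (K : Type) [Field K] [NumberField K] (g : K ≃ₐ[ℚ] K) (hg : g ≠ 1) :
    ∃ x : 𝓞 K, g • x - x ≠ 0 := by
  by_contra h
  push Not at h
  apply hg
  ext k
  have halg : IsAlgebraic ℤ k :=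
    (IsFractionRing.isAlgebraic_iff ℤ ℚ K).2 (Algebra.IsAlgebraic.isAlgebraic k)
  obtain ⟨y, hy0, hy⟩ := halg.exists_integral_multiple
  have h1 := sub_eq_zero.1 (h ⟨y • k, hy⟩)
  have h2 : g (y • k) = y • k := congrArg (fun z : 𝓞 K => (z : K)) h1
  rw [map_zsmul, zsmul_eq_mul, zsmul_eq_mul] at h2
  exact mul_left_cancel₀ (by exact_mod_cast hy0) h2

theorem pf_FNR : T_FNR := by
  intro R
  classical
  have hfin : Finite (R.K ≃ₐ[ℚ] R.K) := inferInstance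
  letI : Fintype (R.K ≃ₐ[ℚ] R.K) := Fintype.ofFinite _
  choose x hx using fun g : {g : R.K ≃ₐ[ℚ] R.K // g ≠ 1} => exists_moved R.K g.1 g.2
  set D : 𝓞 R.K := ∏ g : {g : R.K ≃ₐ[ℚ] R.K // g ≠ 1}, (g.1 • x g - x g) with hD
  have hD0 : D ≠ 0 := Finset.prod_ne_zero_iff.2 fun g _ => hx g
  set m : ℕ := Ideal.absNorm (Ideal.span {D}) with hm
  have hm0 : m ≠ 0 := by
    rw [hm, Ne, Ideal.absNorm_eq_zero_iff, Ideal.span_singleton_eq_bot]
    exact hD0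
  refine ⟨m.primeFactors, fun p hp => ?_⟩
  rw [Subgroup.eq_bot_iff_forall]
  intro g hg
  by_contra hg1
  apply hp
  rw [Nat.mem_primeFactors]
  refine ⟨p.2, ?_, hm0⟩
  have hgx : g • x ⟨g, hg1⟩ - x ⟨g, hg1⟩ ∈ R.P p := hg _
  have hDP : D ∈ R.P p := by
    rw [hD, ← Finset.mul_prod_erase Finset.univ _ (Finset.mem_univ (⟨g, hg1⟩ :
      {g : R.K ≃ₐ[ℚ] R.K // g ≠ 1}))]
    exact (R.P p).mul_mem_right _ hgx
  have hmP : ((m : ℕ) : 𝓞 R.K) ∈ R.P p := by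
    have h1 := Ideal.absNorm_mem (Ideal.span {D})
    exact (Ideal.span_singleton_le_iff_mem _).2 hDP h1
  by_contra hpm
  have hcop : Nat.Coprime (p : ℕ) m := (Nat.Prime.coprime_iff_not_dvd p.2).2 hpm
  have h1 : IsCoprime ((p : ℕ) : ℤ) ((m : ℕ) : ℤ) := Nat.isCoprime_iff_coprime.2 hcop
  obtain ⟨a, b, hab⟩ := h1
  apply (R.P_prime p).ne_top
  rw [Ideal.eq_top_iff_one]
  have h2 : (1 : 𝓞 R.K) = (a : 𝓞 R.K) * ((p : ℕ) : 𝓞 R.K) + (b : 𝓞 R.K) * ((m : ℕ) : 𝓞 R.K) := by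
    have := congrArg (fun z : ℤ => (z : 𝓞 R.K)) hab
    push_cast at this
    exact this.symm
  rw [h2]
  exact (R.P p).add_mem ((R.P p).mul_mem_left _ (R.P_mem p)) ((R.P p).mul_mem_left _ hmP)

end Pool.Agent.H67.RC
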