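import Pool.Agent.H86.RC.LGN

/-! # EQP: characters which agree at almost all primes are equal -/

set_option autoImplicit false

open NumberField Filter Topology

namespace Pool.Agent.H67.RC

open Pool.Agent.H28.RC Pool.Agent.H86.RC

theorem sup_top_of_not_le {F : Type} [Field F] [NumberField F] {m P : Ideal (𝓞 F)}
    (hP : P.IsPrime) (hP0 : P ≠ ⊥) (h : ¬ m ≤ P) : P ⊔ m = ⊤ := by
  have hmax : P.IsMaximal := hP.isMaximal hP0
  refine hmax.1.2 _ (lt_of_le_of_ne le_sup_left fun h1 => h ?_)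
  rw [h1]
  exact le_sup_right

theorem tendsto_log_inv : Tendsto (fun s : ℝ => Real.log (1 / (s - 1))) (𝓝[>] 1) atTop := by
  refine Real.tendsto_log_atTop.comp ?_
  have h1 : Tendsto (fun s : ℝ => s - 1) (𝓝[>] 1) (𝓝[>] 0) := by
    refine tendsto_nhdsWithin_iff.2 ⟨?_, ?_⟩
    · have h2 : Tendsto (fun s : ℝ => s - 1) (𝓝 1) (𝓝 (1 - 1)) :=
        (continuous_id.sub continuous_const).tendsto 1
      rw [sub_self] at h2
      exact h2.mono_left nhdsWithin_le_nhds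
    · filter_upwards [self_mem_nhdsWithin] with s hs
      have h3 : (1 : ℝ) < s := hs
      show 0 < s - 1
      linarith
  simp only [one_div]
  exact tendsto_inv_nhdsGT_zero.comp h1

theorem pf_EQP : T_PCO → T_LGN → T_LGT → T_PRC → T_EQP := by
  intro hPCO hLGN hLGT hPRC F _ _ m b ψ ψ' h h' hb hP
  obtain ⟨φ, hφd⟩ : ∃ φ : Ideal (𝓞 F) → ℂ, φ = fun I => ψ I * (starRingEnd ℂ) (ψ' I) := ⟨_, rfl⟩
  have hφ : PC m φ := by
    rw [hφd]
    exact (hPCO F m ψ h).1 ψ' h'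
  by_cases hc : ∃ I : Ideal (𝓞 F), I ≠ ⊥ ∧ I ⊔ m = ⊤ ∧ φ I ≠ 1
  · exfalso
    obtain ⟨C, hC⟩ := hLGN F m φ hφ hc
    obtain ⟨C'', hC''⟩ := hLGT F
    obtain ⟨C', hC'⟩ := hPRC F (fun P => (φ P).re) (fun _ => 1) 1
      ({P : Ideal (𝓞 F) | P.IsPrime ∧ P ≠ ⊥ ∧ m ≤ P} ∪
        {P : Ideal (𝓞 F) | P.IsPrime ∧ P ≠ ⊥ ∧ b ≤ P})
      (fun P => (Complex.abs_re_le_norm _).trans (pc_norm_le hφ P)) (fun _ => by simp)
      ((primes_finite m h.ne).union (primes_finite b hb)) (fun P hPp hP0 _ hPA => by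
        have h1 : P ⊔ m = ⊤ := sup_top_of_not_le hPp hP0 fun h2 => hPA (Or.inl ⟨hPp, hP0, h2⟩)
        have h2 : P ⊔ b = ⊤ := sup_top_of_not_le hPp hP0 fun h2 => hPA (Or.inr ⟨hPp, hP0, h2⟩)
        have h3 : φ P = 1 := by
          rw [hφd]
          show ψ P * (starRingEnd ℂ) (ψ' P) = 1
          rw [hP P hPp hP0 h2, Complex.mul_conj, Complex.normSq_eq_norm_sq,
            h'.norm P hP0 h1]
          simp
        show (φ P).re = 1
        rw [h3, Complex.one_re])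
    have h3 : ∀ᶠ s : ℝ in 𝓝[>] 1, C + C' + C'' < Real.log (1 / (s - 1)) :=
      tendsto_log_inv.eventually_gt_atTop _
    have h4 : ∀ᶠ s : ℝ in 𝓝[>] 1, 1 < s := eventually_mem_nhdsWithin
    obtain ⟨s, h5, h6, h7, h8⟩ := (hC.and (hC''.and (h3.and h4))).exists
    have h9 := abs_le.1 (hC' s h8)
    have h10 := abs_le.1 h6
    linarith [h9.1, h9.2, h10.1, h10.2]
  · push Not at hc
    funext I
    by_cases h0 : I = ⊥
    · rw [h0, h.bot, h'.bot]
    · by_cases h1 : I ⊔ m = ⊤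
      · have h2 := hc I h0 h1
        rw [hφd] at h2
        have h3 : ψ I * (starRingEnd ℂ) (ψ' I) = 1 := h2
        have h4 : (starRingEnd ℂ) (ψ' I) * ψ' I = 1 := by
          rw [mul_comm, Complex.mul_conj, Complex.normSq_eq_norm_sq, h'.norm I h0 h1]
          simp
        calc ψ I = ψ I * ((starRingEnd ℂ) (ψ' I) * ψ' I) := by rw [h4, mul_one]
          _ = (ψ I * (starRingEnd ℂ) (ψ' I)) * ψ' I := by ring
          _ = ψ' I := by rw [h3, one_mul]
      · rw [h.zero I h1, h'.zero I h1]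

end Pool.Agent.H67.RC
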